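import Mathlib
import Pool.Agent.H.MP_5382b1_gt.C

set_option autoImplicit false

namespace Pool.Agent.Results.MP_5382b1_gt.Rigid

open TopologicalSpace

/-- any point is moved to any other point by a self-homeomorphism. -/
def Homogeneous (Y : Type) [TopologicalSpace Y] : Prop :=
  ∀ x y : Y, ∃ e : Y ≃ₜ Y, e x = y

/-- a countable union of homogeneous subspaces. -/
def SigmaHomogeneous (X : Type) [TopologicalSpace X] : Prop :=
  ∃ Y : ℕ → Set X, (⋃ n, Y n) = Set.univ ∧ ∀ n, Homogeneous ↥(Y n)

/-- at least two points, and the identity is the only self-homeomorphism. -/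
def Rigid (X : Type) [TopologicalSpace X] : Prop :=
  Nontrivial X ∧ ∀ e : X ≃ₜ X, ∀ x, e x = x

theorem result : ∃ (X : Type) (_ : TopologicalSpace X), MetrizableSpace X ∧ SeparableSpace X ∧
    IsTopologicalBasis {U : Set X | IsClopen U} ∧ SigmaHomogeneous X ∧ Rigid X := by
  obtain ⟨X, t, h1, h2, h3, h4, h5, h6, -⟩ := Pool.Agent.H.MP_5382b1_gt.main
  exact ⟨X, t, h1, h2, h3, h5, h4, h6⟩

end Pool.Agent.Results.MP_5382b1_gt.Rigid
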